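import Mathlib

/-!
# The sequence `b_n` of the alternating continued fraction sum algorithm can decrease

For every `x` in the interval `[52/417 + 55/3081, 52/417 + 56/3137)` the procedure yields
`c_1 = 8`, `b_1 = 56`, `c_2 = 52`, `b_2 = 55`, so `b_2 < b_1`. An example is `x = 200/1403`.
-/

set_option autoImplicit false

namespace Pool.Agent.Results.MP_7100ec_nt.DecreasingQuotients

/-- The Gauss map `y ↦ {1/y}` (it maps `0` to `0`). -/
noncomputable def gauss (y : ℝ) : ℝ := Int.fract (1 / y)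

/-- `IsPQ y n a`: the number `y ∈ (0,1]` has an `n`-th partial quotient (`n ≥ 1`) and it is equal to
`a`, that is, the Gauss map can be applied `n - 1` times to `y` without reaching `0` and `a` is the
integer part of the reciprocal of the result. -/
def IsPQ (y : ℝ) (n : ℕ) (a : ℤ) : Prop :=
  0 < y ∧ y ≤ 1 ∧ gauss^[n - 1] y ≠ 0 ∧ a = ⌊1 / gauss^[n - 1] y⌋

/-- The finite continued fraction `[a_1, …, a_n] = 1 / (a_1 + 1 / (a_2 + ⋯))`. -/
noncomputable def cf : List ℤ → ℝ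
  | [] => 0
  | a :: l => 1 / (a + cf l)

/-- `Steps x N c b`: the procedure started at `x` computes the terms `c_1, b_1, …, c_N, b_N`:
`c_1 = a_1(x) + 1`, `b_n = a_n(x - [c_1, …, c_n])` for `1 ≤ n ≤ N` and
`c_{n+1} = a_{n+1}(x - [b_1, …, b_n]) + 1` for `1 ≤ n < N`. -/
structure Steps (x : ℝ) (N : ℕ) (c b : ℕ → ℤ) : Prop where
  /-- `c_1 = a_1(x) + 1` -/
  first : IsPQ x 1 (c 1 - 1)
  /-- `b_n = a_n(x - p_n / q_n)` -/
  b_step : ∀ n, 1 ≤ n → n ≤ N → IsPQ (x - cf ((List.range n).map fun i => c (i + 1))) n (b n)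
  /-- `c_{n+1} = a_{n+1}(x - s_n / t_n) + 1` -/
  c_step : ∀ n, 1 ≤ n → n + 1 ≤ N →
    IsPQ (x - cf ((List.range n).map fun i => b (i + 1))) (n + 1) (c (n + 1) - 1)

lemma gauss_eq {y : ℝ} {a : ℤ} (h1 : (a : ℝ) ≤ 1 / y) (h2 : 1 / y < a + 1) :
    gauss y = 1 / y - a := by
  unfold gauss
  rw [Int.fract, Int.floor_eq_iff.2 ⟨h1, h2⟩]

lemma isPQ_one {y : ℝ} {a : ℤ} (h0 : 0 < y) (h1 : y ≤ 1) (h2 : (a : ℝ) ≤ 1 / y)
    (h3 : 1 / y < a + 1) : IsPQ y 1 a :=
  ⟨h0, h1, by simpa using h0.ne', by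
    simp only [Nat.sub_self, Function.iterate_zero, id_eq]
    exact (Int.floor_eq_iff.2 ⟨h2, h3⟩).symm⟩

lemma isPQ_two {y : ℝ} {a k : ℤ} (h0 : 0 < y) (h1 : y ≤ 1) (h2 : (k : ℝ) < 1 / y)
    (h3 : 1 / y < k + 1) (h4 : (a : ℝ) ≤ 1 / (1 / y - k)) (h5 : 1 / (1 / y - k) < a + 1) :
    IsPQ y 2 a := by
  have e : gauss^[2 - 1] y = 1 / y - k := by
    simp only [Nat.add_one_sub_one, Function.iterate_one]
    exact gauss_eq h2.le h3
  refine ⟨h0, h1, ?_, ?_⟩
  · rw [e]
    intro h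
    linarith
  · rw [e]
    exact (Int.floor_eq_iff.2 ⟨h4, h5⟩).symm

/-- For every `x` in an interval of positive length in `(0,1)` the procedure computes (at least) the
terms `c_1 = 8`, `b_1 = 56`, `c_2 = 52`, `b_2 = 55`. In particular `b_2 < b_1`, and the sequence
`b_n` is not non-decreasing. -/
theorem result : ∃ α β : ℝ, 0 < α ∧ α < β ∧ β < 1 ∧ ∀ x : ℝ, α ≤ x → x < β →
    ∃ c b : ℕ → ℤ, Steps x 2 c b ∧ c 1 = 8 ∧ b 1 = 56 ∧ c 2 = 52 ∧ b 2 = 55 ∧ b 2 < b 1 := by
  refine ⟨52 / 417 + 55 / 3081, 52 / 417 + 56 / 3137, by norm_num, by norm_num, by norm_num,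
    fun x hx1 hx2 => ?_⟩
  obtain ⟨c, hc1, hc2⟩ : ∃ c : ℕ → ℤ, c 1 = 8 ∧ c 2 = 52 :=
    ⟨fun n => if n = 1 then 8 else 52, by simp, by simp⟩
  obtain ⟨b, hb1, hb2⟩ : ∃ b : ℕ → ℤ, b 1 = 56 ∧ b 2 = 55 :=
    ⟨fun n => if n = 1 then 56 else 55, by simp, by simp⟩
  refine ⟨c, b, ?_, hc1, hb1, hc2, hb2, by rw [hb1, hb2]; norm_num⟩
  have hr1 : List.range 1 = [0] := rfl
  have hr2 : List.range 2 = [0, 1] := rfl
  have hx0 : 0 < x := by linarith
  refine ⟨?_, ?_, ?_⟩
  · rw [hc1]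
    apply isPQ_one hx0 (by linarith)
    · rw [le_div_iff₀ hx0]; push_cast; linarith
    · rw [div_lt_iff₀ hx0]; push_cast; linarith
  · intro n hn1 hn2
    obtain rfl | rfl : n = 1 ∨ n = 2 := by omega
    · have hy : x - cf ((List.range 1).map fun i => c (i + 1)) = x - 1 / 8 := by
        rw [hr1]
        simp only [List.map_cons, List.map_nil, cf, zero_add, hc1]
        norm_num
      rw [hy, hb1]
      have h0 : 0 < x - 1 / 8 := by linarith
      apply isPQ_one h0 (by linarith)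
      · rw [le_div_iff₀ h0]; push_cast; linarith
      · rw [div_lt_iff₀ h0]; push_cast; linarith
    · have hy : x - cf ((List.range 2).map fun i => c (i + 1)) = x - 52 / 417 := by
        rw [hr2]
        simp only [List.map_cons, List.map_nil, cf, zero_add, hc1, Nat.reduceAdd, hc2]
        norm_num
      rw [hy, hb2]
      have h0 : 0 < x - 52 / 417 := by linarith
      have h1 : 1 / (x - 52 / 417) ≤ 56 + 1 / 55 := by
        rw [div_le_iff₀ h0]; linarith
      have h2 : 56 + 1 / 56 < 1 / (x - 52 / 417) := by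
        rw [lt_div_iff₀ h0]; linarith
      have h3 : 0 < 1 / (x - 52 / 417) - 56 := by linarith
      apply isPQ_two (k := 56) h0 (by linarith)
      · push_cast; linarith
      · push_cast; linarith
      · push_cast
        rw [le_div_iff₀ h3]; linarith
      · push_cast
        rw [div_lt_iff₀ h3]; linarith
  · intro n hn1 hn2
    obtain rfl : n = 1 := by omega
    have hy : x - cf ((List.range 1).map fun i => b (i + 1)) = x - 1 / 56 := by
      rw [hr1]
      simp only [List.map_cons, List.map_nil, cf, zero_add, hb1]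
      norm_num
    rw [hy, show c (1 + 1) = 52 from hc2]
    have h0 : 0 < x - 1 / 56 := by linarith
    have h1 : 1 / (x - 1 / 56) ≤ 8 + 1 / 51 := by
      rw [div_le_iff₀ h0]; linarith
    have h2 : 8 + 1 / 52 < 1 / (x - 1 / 56) := by
      rw [lt_div_iff₀ h0]; linarith
    have h3 : 0 < 1 / (x - 1 / 56) - 8 := by linarith
    apply isPQ_two (k := 8) h0 (by linarith)
    · push_cast; linarith
    · push_cast; linarith
    · push_cast
      rw [le_div_iff₀ h3]; linarith
    · push_cast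
      rw [div_lt_iff₀ h3]; linarith

end Pool.Agent.Results.MP_7100ec_nt.DecreasingQuotients
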